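import Pool.Agent.V7H75.RB.Asym

/-!
# A separating function for read-once branching programs with polynomially many terms

The definitions (`Term`, `Sat`, `HasDNF`, `NBP`, `HasNBP`, `HasBP`) are in
`Pool/Agent/V7H75/RB/Defs.lean`.  The question is whether there is a family `f` of Boolean
functions such that

* `f` has DNFs of polynomial size (the class `Σ₂ᵖ`);
* `f` and its negation have nondeterministic read-once branching programs of polynomial size;
* `f` has no deterministic read-once branching programs of polynomial size.

The answer is yes, even for monotone functions, and the gap is exponential.

The function.  The variables form six blocks, each a matrix of order `q` (`6 q ^ 2 ≤ n`).  The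
function is true if some block has two rows of ones, or if each block `j` has a row `i_j` of ones and
the variable of row `i_0 + i_1` and column `i_2 + i_3` (modulo `q`) in the block with number
`i_4 + i_5` is a one.  Both kinds of conditions are conjunctions of variables, and there are
`6 q ^ 2 + q ^ 6` of them.  A nondeterministic program for the negation guesses for each block the
row of ones, or that there is none.

The lower bound.  An adversary answers with ones the first `q - 2` questions about a row, is free in
the answer to the question number `q - 1`, and makes sure that the complete row has one zero.  The
computations with `s < q / 4` free answers end in different nodes: otherwise two of them have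
different values at a variable `v`; in each block more than half of the rows have at least two
variables which are unread in both computations (the rows with at most `q - 2` questions), so the
rows `i_j` can be chosen among those such that the variable addressed is `v`.
-/

set_option autoImplicit false

namespace Pool.Agent.Results.MP_4f31df_lc.SeparatingDNFH75

open Pool.Agent.V7H75.RB

/-- There is a family of monotone Boolean functions `f n` of `n` variables with DNFs of at most
`n ^ 4 + 4` terms, such that `f n` and its negation have nondeterministic read-once branching
programs with at most `n ^ 13 + 13` nodes, and such that every deterministic read-once branching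
program for `f n` has at least `2 ^ ((√(n / 6) - 1) / 4)` nodes (with rounded divisions and square
root), which for every `c` is larger than `n ^ c + c` for all large `n`. -/
theorem result : ∃ f : (n : ℕ) → (Fin n → Bool) → Bool,
    (∀ n, Monotone (f n)) ∧
    (∀ n, HasDNF n (n ^ 4 + 4) (f n)) ∧
    (∀ n, HasNBP n (n ^ 13 + 13) (f n)) ∧
    (∀ n, HasNBP n (n ^ 9 + 9) (fun x => ! f n x)) ∧
    (∀ n s, HasBP n s (f n) → 2 ^ ((Nat.sqrt (n / 6) - 1) / 4) ≤ s) ∧
    (∀ c, ∃ n₀, ∀ n ≥ n₀, ¬ HasBP n (n ^ c + c) (f n)) := by
  refine ⟨F, F_mono, F_dnf, F_nbp, F_neg_nbp, F_lower, fun c => ?_⟩
  obtain ⟨n₀, h⟩ := superpoly c
  exact ⟨n₀, fun n hn hb => absurd (F_lower n _ hb) (not_le.2 (h n hn))⟩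

end Pool.Agent.Results.MP_4f31df_lc.SeparatingDNFH75
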